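import Mathlib

/-!
The polynomial whose zeros are the `f`-th powers of the zeros of a polynomial, modulo a prime `l`,
for a power `f` of `l`.
-/

set_option autoImplicit false
set_option linter.all false

open Polynomial

namespace Pool.Agent.TH943.KF

/-- `Q` is the characteristic polynomial `det (1 - F ^ f T)` if `P = det (1 - F T)`: both have constant
term `1` and the complex zeros of `Q` are the `f`-th powers of those of `P`. -/
def IsPower (f : ℕ) (P Q : ℤ[X]) : Prop :=
  P.coeff 0 = 1 ∧ Q.coeff 0 = 1 ∧ Q.aroots ℂ = (P.aroots ℂ).map (fun z => z ^ f)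

theorem factor (P : ℤ[X]) (h0 : P.coeff 0 = 1) :
    P.map (Int.castRingHom ℂ) = ((P.aroots ℂ).map (fun z => 1 - C z⁻¹ * X)).prod := by
  have hP : P ≠ 0 := by
    rintro rfl
    simp at h0
  set p := P.map (Int.castRingHom ℂ) with hp
  have hp0 : p ≠ 0 := (Polynomial.map_ne_zero_iff (RingHom.injective_int _)).2 hP
  have hc : p.coeff 0 = 1 := by
    rw [hp, coeff_map, h0, map_one]
  have hroots : P.aroots ℂ = p.roots := rfl
  rw [hroots]
  have hs : p.Splits := IsAlgClosed.splits p
  have h1 := hs.eq_prod_roots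
  have hz : ∀ z ∈ p.roots, z ≠ 0 := by
    intro z hz h
    rw [mem_roots hp0, IsRoot.def, h, ← coeff_zero_eq_eval_zero, hc] at hz
    exact one_ne_zero hz
  have h2 : ∀ s : Multiset ℂ, (∀ z ∈ s, z ≠ 0) →
      (s.map (fun a => X - C a)).prod =
        C ((s.map (fun a => -a)).prod) * (s.map (fun z => 1 - C z⁻¹ * X)).prod := by
    intro s hs'
    induction s using Multiset.induction_on with
    | empty => simp
    | cons a s ih =>
      have ha := hs' a (Multiset.mem_cons_self a s)
      rw [Multiset.map_cons, Multiset.prod_cons, Multiset.map_cons, Multiset.prod_cons,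
        Multiset.map_cons, Multiset.prod_cons, ih fun z hz => hs' z (Multiset.mem_cons_of_mem hz)]
      have h3 : (X - C a : ℂ[X]) = C (-a) * (1 - C a⁻¹ * X) := by
        rw [mul_sub, mul_one, ← mul_assoc, ← C_mul, neg_mul, mul_inv_cancel₀ ha, C_neg, C_neg, C_1]
        ring
      rw [h3, C_mul]
      ring
  rw [h2 _ hz, ← mul_assoc, ← C_mul] at h1
  have h4 : p.leadingCoeff * (p.roots.map (fun a => -a)).prod = 1 := by
    have h5 := congrArg (fun r => coeff r 0) h1
    beta_reduce at h5
    rw [hc, coeff_C_mul] at h5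
    have h6 : ∀ s : Multiset ℂ, ((s.map (fun z => 1 - C z⁻¹ * X)).prod : ℂ[X]).coeff 0 = 1 := by
      intro s
      induction s using Multiset.induction_on with
      | empty => simp
      | cons a s ih =>
        rw [Multiset.map_cons, Multiset.prod_cons, mul_coeff_zero, ih]
        simp
    rw [h6, mul_one] at h5
    exact h5.symm
  rw [h4, C_1, one_mul] at h1
  exact h1

theorem integral_inv (P : ℤ[X]) (h0 : P.coeff 0 = 1) {z : ℂ} (hz : z ∈ P.aroots ℂ) :
    IsIntegral ℤ z⁻¹ := by
  have hP : P ≠ 0 := by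
    rintro rfl
    simp at h0
  rw [mem_aroots] at hz
  have hz0 : z ≠ 0 := by
    rintro rfl
    have h1 := hz.2
    rw [aeval_def, eval₂_at_zero, h0, map_one] at h1
    exact one_ne_zero h1
  refine ⟨P.reverse, ?_, ?_⟩
  · rw [Monic, reverse_leadingCoeff]
    have h1 : P.natTrailingDegree = 0 := by
      rw [natTrailingDegree_eq_zero]
      right
      rw [h0]
      exact one_ne_zero
    rw [trailingCoeff, h1, h0]
  · let _ := invertibleOfNonzero hz0
    have h1 := eval₂_reverse_mul_pow (algebraMap ℤ ℂ) z P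
    have h2 : eval₂ (algebraMap ℤ ℂ) z P = 0 := hz.2
    rw [h2, invOf_eq_inv] at h1
    exact (mul_eq_zero.1 h1).resolve_right (pow_ne_zero _ hz0)

/-- the polynomial with zeros the inverses, over a ring of algebraic integers -/
theorem expand_mod {l : ℕ} [hl : Fact l.Prime] {P Q : ℤ[X]} {j : ℕ} (h : IsPower (l ^ j) P Q) :
    (expand ℤ (l ^ j) Q).map (Int.castRingHom (ZMod l)) =
      (P.map (Int.castRingHom (ZMod l))) ^ (l ^ j) := by
  classical
  obtain ⟨hP0, hQ0, hroots⟩ := h
  set f := l ^ j with hf
  -- the ring of algebraic integers and a residue field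
  let O := integralClosure ℤ ℂ
  have hnu : ¬ IsUnit ((l : ℕ) : O) := by
    intro hu
    obtain ⟨u, hu⟩ := hu.exists_right_inv
    have h1 : IsIntegral ℤ ((u : O) : ℂ) := u.2
    have h2 : ((u : O) : ℂ) = ((l : ℚ)⁻¹ : ℚ) := by
      have h3 := congrArg (fun x : O => (x : ℂ)) hu
      simp only [MulMemClass.coe_mul, OneMemClass.coe_one] at h3
      have h4 : (((l : ℕ) : O) : ℂ) = (l : ℂ) := by norm_cast
      rw [h4] at h3
      push_cast
      exact eq_inv_of_mul_eq_one_right h3
    rw [h2] at h1
    have h5 : IsIntegral ℤ ((l : ℚ)⁻¹) := by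
      have h6 : (((l : ℚ)⁻¹ : ℚ) : ℂ) = algebraMap ℚ ℂ ((l : ℚ)⁻¹) := rfl
      rw [h6] at h1
      exact (isIntegral_algebraMap_iff (algebraMap ℚ ℂ).injective).1 h1
    obtain ⟨z, hz⟩ := IsIntegrallyClosed.isIntegral_iff.1 h5
    have h7 : (z : ℚ) * l = 1 := by
      have h8 : algebraMap ℤ ℚ z = (z : ℚ) := rfl
      rw [← h8, hz]
      exact inv_mul_cancel₀ (by exact_mod_cast hl.out.ne_zero)
    have h9 : z * (l : ℤ) = 1 := by exact_mod_cast h7
    have h10 : IsUnit (l : ℤ) := IsUnit.of_mul_eq_one z (by rw [mul_comm]; exact h9)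
    rw [Int.isUnit_iff] at h10
    have := hl.out.two_le
    omega
  obtain ⟨m, hm, hlm⟩ := exists_max_ideal_of_mem_nonunits hnu
  let κ := O ⧸ m
  letI : Field κ := Ideal.Quotient.field m
  let φ : O →+* κ := Ideal.Quotient.mk m
  have hlk : ((l : ℕ) : κ) = 0 := by
    have : φ ((l : ℕ) : O) = 0 := Ideal.Quotient.eq_zero_iff_mem.2 hlm
    rwa [map_natCast] at this
  haveI hchar : CharP κ l := by
    have hdvd : ringChar κ ∣ l := ringChar.dvd hlk
    have hne : ringChar κ ≠ 1 := CharP.ringChar_ne_one
    have heq : ringChar κ = l := ((Nat.dvd_prime hl.out).1 hdvd).resolve_left hne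
    rw [← heq]
    exact ringChar.charP κ
  -- lift the factorisations
  have key : ∀ R : ℤ[X], R.coeff 0 = 1 → ∀ (α : Multiset O),
      α.map (fun x : O => (x : ℂ)) = (R.aroots ℂ).map (fun z => z⁻¹) →
      R.map (Int.castRingHom κ) = (α.map (fun x => 1 - C (φ x) * X)).prod := by
    intro R hR α hα
    have h1 : R.map (Int.castRingHom O) = (α.map (fun x => 1 - C x * X)).prod := by
      have hinj : Function.Injective (Polynomial.map (algebraMap O ℂ)) :=
        Polynomial.map_injective _ Subtype.val_injective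
      apply hinj
      rw [Polynomial.map_map, Polynomial.map_multiset_prod, Multiset.map_map]
      have h2 : (algebraMap O ℂ).comp (Int.castRingHom O) = Int.castRingHom ℂ :=
        RingHom.ext_int _ _
      rw [h2, factor R hR]
      have h3 : (R.aroots ℂ).map (fun z => 1 - C z⁻¹ * X) =
          ((R.aroots ℂ).map (fun z => z⁻¹)).map (fun z => 1 - C z * X) := by
        rw [Multiset.map_map]
        rfl
      rw [h3, ← hα, Multiset.map_map]
      congr 1
      apply Multiset.map_congr rfl
      intro x _
      simp only [Function.comp_apply, Polynomial.map_sub, Polynomial.map_one, Polynomial.map_mul,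
        Polynomial.map_C, Polynomial.map_X]
      rfl
    have h4 := congrArg (Polynomial.map φ) h1
    rw [Polynomial.map_map, Polynomial.map_multiset_prod, Multiset.map_map] at h4
    have h5 : φ.comp (Int.castRingHom O) = Int.castRingHom κ := RingHom.ext_int _ _
    rw [h5] at h4
    rw [h4]
    congr 1
    apply Multiset.map_congr rfl
    intro x _
    simp only [Function.comp_apply, Polynomial.map_sub, Polynomial.map_one, Polynomial.map_mul,
      Polynomial.map_C, Polynomial.map_X]
  -- the inverse zeros of P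
  let α : Multiset O := (P.aroots ℂ).attach.map
    (fun z : {x // x ∈ P.aroots ℂ} => (⟨(z : ℂ)⁻¹, integral_inv P hP0 z.2⟩ : O))
  have hα : α.map (fun x : O => (x : ℂ)) = (P.aroots ℂ).map (fun z => z⁻¹) := by
    show ((P.aroots ℂ).attach.map _).map _ = _
    rw [Multiset.map_map]
    have : (fun x : O => (x : ℂ)) ∘ (fun z : {x // x ∈ P.aroots ℂ} =>
        (⟨(z : ℂ)⁻¹, integral_inv P hP0 z.2⟩ : O)) =
        fun z : {x // x ∈ P.aroots ℂ} => (fun w : ℂ => w⁻¹) z.1 := rfl
    rw [this, Multiset.attach_map_val' (P.aroots ℂ) (fun w : ℂ => w⁻¹)]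
  have h1 := key P hP0 α hα
  have h2 := key Q hQ0 (α.map (fun x => x ^ f)) (by
    rw [Multiset.map_map]
    have e1 : (fun x : O => (x : ℂ)) ∘ (fun x : O => x ^ f) =
        (fun w : ℂ => w ^ f) ∘ (fun x : O => (x : ℂ)) := by
      funext x
      simp
    rw [e1, ← Multiset.map_map, hα, hroots, Multiset.map_map, Multiset.map_map]
    apply Multiset.map_congr rfl
    intro z _
    simp)
  have hfpos : 0 < f := pow_pos hl.out.pos _
  have h3 : (expand ℤ f Q).map (Int.castRingHom κ) = (P.map (Int.castRingHom κ)) ^ f := by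
    rw [map_expand, h2, h1, map_multiset_prod, Multiset.map_map, Multiset.map_map,
      ← Multiset.prod_map_pow]
    congr 1
    apply Multiset.map_congr rfl
    intro x _
    have hex : ExpChar κ[X] l := by
      haveI : CharP κ[X] l := inferInstance
      exact ExpChar.prime hl.out
    simp only [Function.comp_apply, map_sub, map_one, map_mul, expand_C, expand_X, map_pow]
    rw [hf, sub_pow_expChar_pow, one_pow, mul_pow]
  -- descend
  have hinj : Function.Injective (Polynomial.map (ZMod.castHom (dvd_refl l) κ)) :=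
    Polynomial.map_injective _ (RingHom.injective _)
  apply hinj
  rw [Polynomial.map_map, Polynomial.map_pow, Polynomial.map_map]
  have h6 : (ZMod.castHom (dvd_refl l) κ).comp (Int.castRingHom (ZMod l)) = Int.castRingHom κ :=
    RingHom.ext_int _ _
  rw [h6, h3]

end Pool.Agent.TH943.KF
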