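import Pool.Agent.TH943.KF.Frob
import Pool.Agent.TH943.KD.Kd

/-!
The comparison of Euler products over a function field and over a Galois extension of prime power
degree, modulo the prime.
-/

set_option autoImplicit false
set_option linter.all false
set_option maxHeartbeats 4000000

open FF Module

namespace Pool.Agent.TH943.KF

open Pool.Agent.H123R3.ZT Pool.Agent.W343.BSD Pool.Agent.W313.Gr

section one

variable {k K : Type} [Field k] [Finite k] [Field K] [Algebra k K] [FF.IsFF k K]

/-- the Euler factors `F v (T ^ deg v)` -/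
noncomputable def fac (F : Place k K → Polynomial ℤ) (v : Place k K) : PowerSeries ℤ :=
  ((Polynomial.expand ℤ v.deg (F v) : Polynomial ℤ) : PowerSeries ℤ)

/-- the product of the `F v (T ^ deg v)` -/
noncomputable def euler (F : Place k K → Polynomial ℤ) : PowerSeries ℤ :=
  eulerProd (fun v : Place k K => v.deg) (fac F)

/-- the Euler factors modulo `l` -/
noncomputable def lf (l : ℕ) (F : Place k K → Polynomial ℤ) (v : Place k K) :
    Polynomial (ZMod l) :=
  (Polynomial.expand ℤ v.deg (F v)).map (Int.castRingHom (ZMod l))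

theorem expand_dvd {R : Type} [CommRing R] {d : ℕ} {P : Polynomial R} (h : P.coeff 0 = 1) :
    (Polynomial.X : Polynomial R) ^ d ∣ Polynomial.expand R d P - 1 := by
  have h1 : (Polynomial.X : Polynomial R) ∣ P - 1 := by
    rw [Polynomial.X_dvd_iff, Polynomial.coeff_sub, h, Polynomial.coeff_one_zero, sub_self]
  obtain ⟨Q, hQ⟩ := h1
  refine ⟨Polynomial.expand R d Q, ?_⟩
  have h2 := congrArg (Polynomial.expand R d) hQ
  rw [map_sub, map_one, map_mul, Polynomial.expand_X] at h2
  exact h2

theorem const_fac {F : Place k K → Polynomial ℤ} (hF : ∀ v, (F v).coeff 0 = 1) (v : Place k K) :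
    (PowerSeries.X : PowerSeries ℤ) ^ v.deg ∣ fac F v - 1 := by
  obtain ⟨Q, hQ⟩ := expand_dvd (d := v.deg) (hF v)
  refine ⟨(Q : PowerSeries ℤ), ?_⟩
  have h2 := congrArg (fun P : Polynomial ℤ => (P : PowerSeries ℤ)) hQ
  beta_reduce at h2
  rw [Polynomial.coe_sub, Polynomial.coe_one, Polynomial.coe_mul, Polynomial.coe_pow,
    Polynomial.coe_X] at h2
  exact h2

theorem const_lf (l : ℕ) {F : Place k K → Polynomial ℤ} (hF : ∀ v, (F v).coeff 0 = 1)
    (v : Place k K) :
    (PowerSeries.X : PowerSeries (ZMod l)) ^ v.deg ∣ (lf l F v : PowerSeries (ZMod l)) - 1 := by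
  have h := map_dvd (redL l) (const_fac hF v)
  rw [map_sub, map_one, map_pow, fac, redL_poly, PowerSeries.map_X] at h
  exact h

theorem lf_ne (l : ℕ) [Fact l.Prime] {F : Place k K → Polynomial ℤ} (hF : ∀ v, (F v).coeff 0 = 1)
    (v : Place k K) : lf l F v ≠ 0 := by
  intro h
  have h1 := const_lf l hF v
  rw [h, Polynomial.coe_zero, zero_sub, dvd_neg] at h1
  obtain ⟨q, hq⟩ := h1
  have h2 := congrArg (PowerSeries.constantCoeff (R := ZMod l)) hq
  rw [map_one, map_mul, map_pow, PowerSeries.constantCoeff_X, zero_pow (deg_pos' v).ne',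
    zero_mul] at h2
  exact one_ne_zero h2

theorem euler_mod (l : ℕ) {F : Place k K → Polynomial ℤ} (hF : ∀ v, (F v).coeff 0 = 1) :
    redL l (euler F) = eulerProd (fun v : Place k K => v.deg)
      (fun v => (lf l F v : PowerSeries (ZMod l))) := by
  unfold euler
  rw [map_eulerProd (fun n => places_fin n)]
  congr 1
  funext v
  exact redL_poly l _

end one

section ext

variable {k K L : Type} [Field k] [Finite k] [Field K] [Algebra k K] [FF.IsFF k K] [Field L]
  [Algebra k L] [Algebra K L] [IsScalarTower k K L] [FF.IsFF k L] [FiniteDimensional K L]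
  [IsGalois K L]

/-- the comparison of the Euler products -/
theorem identity {l s : ℕ} [Fact l.Prime] (hn : finrank K L = l ^ s)
    {F : Place k K → Polynomial ℤ} {G : Place k L → Polynomial ℤ} (hF : ∀ v, (F v).coeff 0 = 1)
    (hG : ∀ w, (G w).coeff 0 = 1) {S : Place k K → Finset (Place k L)}
    {e f : Place k K → ℕ} (D : ∀ v, GaloisFiber v (S v) (e v) (f v)) (B : Finset (Place k K))
    (hB : ∀ v, v ∉ B → e v = 1) (hBl : ∀ v, v ∉ B → ∀ w ∈ S v, lf l G w = lf l F v ^ f v)
    {P : Polynomial ℤ} (hP : (P : PowerSeries ℤ) * euler F = 1)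
    {Q : Polynomial ℤ} (hQ : (Q : PowerSeries ℤ) * euler G = 1) :
    (P.map (Int.castRingHom (ZMod l))) ^ l ^ s * ∏ v ∈ B, lf l F v ^ l ^ s =
    Q.map (Int.castRingHom (ZMod l)) * ∏ v ∈ B, ∏ w ∈ S v, lf l G w := by
  classical
  apply Polynomial.coe_injective
  set Φ : Place k K → PowerSeries (ZMod l) := fun v => ∏ w ∈ S v,
    (lf l G w : PowerSeries (ZMod l)) with hΦ
  set W : Place k K → PowerSeries (ZMod l) :=
    fun v => ∏ _i ∈ Finset.range (l ^ s), (lf l F v : PowerSeries (ZMod l)) with hW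
  have hfpos : ∀ v, 0 < f v := fun v => by
    rcases Nat.eq_zero_or_pos (f v) with h0 | h0
    · have h1 := (D v).mul
      rw [h0, mul_zero, mul_zero] at h1
      have : 0 < finrank K L := finrank_pos
      omega
    · exact h0
  have hΦ1 : ∀ v, (PowerSeries.X : PowerSeries (ZMod l)) ^ v.deg ∣ Φ v - 1 := by
    intro v
    have h := prod_congr_mod (S v) (fun w => (lf l G w : PowerSeries (ZMod l)))
      (fun _ => 1) v.deg (fun w hw => (pow_dvd_pow _ (by
        rw [(D v).deg w hw]
        exact Nat.le_mul_of_pos_right _ (hfpos v))).trans (const_lf l hG w))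
    rwa [Finset.prod_const_one] at h
  have hW1 : ∀ v, (PowerSeries.X : PowerSeries (ZMod l)) ^ v.deg ∣ W v - 1 := by
    intro v
    have h := prod_congr_mod (Finset.range (l ^ s))
      (fun _ => (lf l F v : PowerSeries (ZMod l)))
      (fun _ => 1) v.deg (fun w hw => const_lf l hF v)
    rwa [Finset.prod_const_one] at h
  have hgood : ∀ v, v ∉ B → Φ v = W v := by
    intro v hv
    have he := hB v hv
    have h1 := hBl v hv
    have h2 : (S v).card * f v = l ^ s := by
      rw [← hn, ← (D v).mul, he, one_mul]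
    show ∏ w ∈ S v, (lf l G w : PowerSeries (ZMod l)) =
      ∏ _i ∈ Finset.range (l ^ s), (lf l F v : PowerSeries (ZMod l))
    rw [Finset.prod_congr rfl (fun w hw => by rw [h1 w hw]), Finset.prod_const, Finset.prod_const,
      Finset.card_range, ← h2, Polynomial.coe_pow, ← pow_mul, mul_comm (f v)]
  have key := fin_factor' (fun n => places_fin n) hΦ1 hW1 B hgood
  rw [hΦ, euler_fiber D (fun w => const_lf l hG w)] at key
  rw [hW, eulerProd_prod (fun n => places_fin n) (Finset.range (l ^ s))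
    (fun _ v => (lf l F v : PowerSeries (ZMod l))) (fun _ v => const_lf l hF v)] at key
  simp only [Finset.prod_const, Finset.card_range] at key
  have hK := congrArg (redL l) hP
  have hL := congrArg (redL l) hQ
  rw [map_mul, map_one, euler_mod l hF, redL_poly] at hK
  rw [map_mul, map_one, euler_mod l hG, redL_poly] at hL
  rw [Polynomial.coe_mul, Polynomial.coe_mul, Polynomial.coe_pow, coe_prod', coe_prod']
  simp only [Polynomial.coe_pow, coe_prod']
  set p : PowerSeries (ZMod l) :=
    ((P.map (Int.castRingHom (ZMod l)) : Polynomial (ZMod l)) : PowerSeries (ZMod l))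
  set q : PowerSeries (ZMod l) :=
    ((Q.map (Int.castRingHom (ZMod l)) : Polynomial (ZMod l)) : PowerSeries (ZMod l))
  set EK := eulerProd (fun v : FF.Place k K => v.deg)
      (fun v => (lf l F v : PowerSeries (ZMod l)))
  set EL := eulerProd (fun v : FF.Place k L => v.deg)
      (fun v => (lf l G v : PowerSeries (ZMod l)))
  have hKn : p ^ l ^ s * EK ^ l ^ s = 1 := by rw [← mul_pow, hK, one_pow]
  linear_combination p ^ l ^ s * q * key -
    p ^ l ^ s * (∏ v ∈ B, (lf l F v : PowerSeries (ZMod l)) ^ l ^ s) * hL +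
    q * (∏ v ∈ B, ∏ w ∈ S v, (lf l G w : PowerSeries (ZMod l))) * hKn

section mu

variable {l : ℕ} [Fact l.Prime] {μ : Polynomial (ZMod l) → ℕ}
  (hμ : ∀ p q, p ≠ 0 → q ≠ 0 → μ (p * q) = μ p + μ q)

include hμ

theorem mu_one : μ 1 = 0 := by
  have h := hμ 1 1 one_ne_zero one_ne_zero
  rw [one_mul] at h
  omega

theorem mu_pow {p : Polynomial (ZMod l)} (hp : p ≠ 0) (n : ℕ) : μ (p ^ n) = n * μ p := by
  induction n with
  | zero => rw [pow_zero, mu_one hμ, zero_mul]
  | succ n ih => rw [pow_succ, hμ _ _ (pow_ne_zero n hp) hp, ih]; ring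

theorem mu_prod {ι : Type*} (s : Finset ι) (g : ι → Polynomial (ZMod l)) (h : ∀ i ∈ s, g i ≠ 0) :
    μ (∏ i ∈ s, g i) = ∑ i ∈ s, μ (g i) := by
  classical
  induction s using Finset.induction_on with
  | empty => simp [mu_one hμ]
  | insert i s hi ih =>
    rw [Finset.prod_insert hi, Finset.sum_insert hi, hμ _ _ (h i (Finset.mem_insert_self i s))
      (Finset.prod_ne_zero_iff.2 fun j hj => h j (Finset.mem_insert_of_mem hj)),
      ih fun j hj => h j (Finset.mem_insert_of_mem hj)]

theorem mu_dvd {p q : Polynomial (ZMod l)} (h : p ∣ q) (hq : q ≠ 0) : μ p ≤ μ q := by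
  obtain ⟨r, rfl⟩ := h
  rw [hμ _ _ (left_ne_zero_of_mul hq) (right_ne_zero_of_mul hq)]
  exact Nat.le_add_right _ _

theorem kida_mu {s : ℕ} (hn : finrank K L = l ^ s)
    {F : Place k K → Polynomial ℤ} {G : Place k L → Polynomial ℤ} (hF : ∀ v, (F v).coeff 0 = 1)
    (hG : ∀ w, (G w).coeff 0 = 1) {S : Place k K → Finset (Place k L)}
    {e f : Place k K → ℕ} (D : ∀ v, GaloisFiber v (S v) (e v) (f v)) (B : Finset (Place k K))
    (hB : ∀ v, v ∉ B → e v = 1) (hBl : ∀ v, v ∉ B → ∀ w ∈ S v, lf l G w = lf l F v ^ f v)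
    (hdvd : ∀ v ∈ B, ∀ w ∈ S v, lf l F v ^ f v ∣ lf l G w)
    {P : Polynomial ℤ} (hP : (P : PowerSeries ℤ) * euler F = 1)
    {Q : Polynomial ℤ} (hQ : (Q : PowerSeries ℤ) * euler G = 1) :
    μ (Q.map (Int.castRingHom (ZMod l))) ≤ l ^ s * μ (P.map (Int.castRingHom (ZMod l))) +
      ∑ v ∈ B, (l ^ s - l ^ s / e v) * μ (lf l F v) ∧
    ((∀ v ∈ B, ∀ w ∈ S v, lf l G w = lf l F v ^ f v) →
      μ (Q.map (Int.castRingHom (ZMod l))) = l ^ s * μ (P.map (Int.castRingHom (ZMod l))) +
      ∑ v ∈ B, (l ^ s - l ^ s / e v) * μ (lf l F v)) := by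
  classical
  have hid := identity hn hF hG D B hB hBl hP hQ
  set P' := P.map (Int.castRingHom (ZMod l)) with hP'
  set Q' := Q.map (Int.castRingHom (ZMod l)) with hQ'
  have hP0 : P' ≠ 0 := by
    intro h
    have h1 := congrArg (redL l) hP
    rw [map_mul, map_one, redL_poly, ← hP', h, Polynomial.coe_zero, zero_mul] at h1
    exact zero_ne_one h1
  have hQ0 : Q' ≠ 0 := by
    intro h
    have h1 := congrArg (redL l) hQ
    rw [map_mul, map_one, redL_poly, ← hQ', h, Polynomial.coe_zero, zero_mul] at h1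
    exact zero_ne_one h1
  have hpne : ∀ v ∈ B, lf l F v ^ l ^ s ≠ 0 := fun v _ => pow_ne_zero _ (lf_ne l hF v)
  have hwne : ∀ v ∈ B, ∏ w ∈ S v, lf l G w ≠ 0 :=
    fun v _ => Finset.prod_ne_zero_iff.2 fun w _ => lf_ne l hG w
  have hmu := congrArg μ hid
  rw [hμ _ _ (pow_ne_zero _ hP0) (Finset.prod_ne_zero_iff.2 hpne), mu_pow hμ hP0,
    mu_prod hμ _ _ hpne, hμ _ _ hQ0 (Finset.prod_ne_zero_iff.2 hwne), mu_prod hμ _ _ hwne] at hmu
  have hepos : ∀ v, 0 < e v := by
    intro v
    have hmul := (D v).mul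
    rw [hn] at hmul
    rcases Nat.eq_zero_or_pos (e v) with h0 | h0
    · rw [h0, zero_mul, mul_zero] at hmul
      exact absurd hmul.symm (pow_ne_zero s (Fact.out : l.Prime).ne_zero)
    · exact h0
  have hcard : ∀ v, (S v).card * f v = l ^ s / e v := by
    intro v
    have hmul := (D v).mul
    rw [hn] at hmul
    rw [← hmul, show (S v).card * (e v * f v) = e v * ((S v).card * f v) by ring,
      Nat.mul_div_cancel_left _ (hepos v)]
  have hsplit : ∑ v ∈ B, μ (lf l F v ^ l ^ s) =
      ∑ v ∈ B, (l ^ s - l ^ s / e v) * μ (lf l F v) + ∑ v ∈ B, l ^ s / e v * μ (lf l F v) := by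
    rw [← Finset.sum_add_distrib]
    refine Finset.sum_congr rfl fun v hv => ?_
    rw [mu_pow hμ (lf_ne l hF v), ← Nat.add_mul]
    congr 1
    exact (Nat.sub_add_cancel (Nat.div_le_self _ _)).symm
  constructor
  · have hle : ∑ v ∈ B, l ^ s / e v * μ (lf l F v) ≤ ∑ v ∈ B, μ (∏ w ∈ S v, lf l G w) := by
      refine Finset.sum_le_sum fun v hv => ?_
      rw [mu_prod hμ _ _ fun w _ => lf_ne l hG w, ← hcard v, mul_assoc, ← smul_eq_mul,
        ← Finset.sum_const]
      refine Finset.sum_le_sum fun w hw => ?_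
      rw [← mu_pow hμ (lf_ne l hF v)]
      exact mu_dvd hμ (hdvd v hv w hw) (lf_ne l hG w)
    omega
  · intro hex
    have heq : ∑ v ∈ B, l ^ s / e v * μ (lf l F v) = ∑ v ∈ B, μ (∏ w ∈ S v, lf l G w) := by
      refine Finset.sum_congr rfl fun v hv => ?_
      rw [mu_prod hμ _ _ fun w _ => lf_ne l hG w, ← hcard v, mul_assoc, ← smul_eq_mul,
        ← Finset.sum_const]
      refine Finset.sum_congr rfl fun w hw => ?_
      rw [← mu_pow hμ (lf_ne l hF v), hex v hv w hw]
    omega

end mu

end ext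

section consts

variable {k F k' : Type} [Field k] [Finite k] [Field k'] [Finite k'] [Field F] [Algebra k k']
  [Algebra k' F] [Algebra k F] [IsScalarTower k k' F] [FF.IsFF k F] [FF.IsFF k' F]

theorem euler_rel (hr : finrank k k' ≠ 0) {F' : Place k' F → Polynomial ℤ}
    (hF : ∀ w, (F' w).coeff 0 = 1) :
    euler (fun w : Place k F => F' (upPlace w)) =
      PowerSeries.expand (finrank k k') hr (euler F') := by
  unfold euler
  have hfin' : ∀ n, {v : Place k' F | v.deg ≤ n}.Finite := fun n => places_fin n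
  rw [expand_eulerProd hfin' hr (fun v => const_fac hF v)]
  have h2 := eulerProd_equiv (R := ℤ) (placeEquiv (k := k) (k' := k') (F := F))
    (fun v => finrank k k' * v.deg) (fun n => (hfin' n).subset fun v hv =>
      (Nat.le_mul_of_pos_left _ (Nat.pos_of_ne_zero hr)).trans hv)
    (fun v => PowerSeries.expand (finrank k k') hr (fac F' v))
  rw [← h2]
  have e1 : (fun v : Place k F => v.deg) =
      fun v => finrank k k' * (placeEquiv (k' := k') v).deg := funext fun v =>
    deg_down (k := k) (placeEquiv (k' := k') v)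
  have e2 : fac (fun w : Place k F => F' (upPlace w)) =
      fun v => PowerSeries.expand (finrank k k') hr (fac F' (placeEquiv (k' := k') v)) := by
    funext v
    unfold fac
    rw [← coe_expand, ← Polynomial.expand_mul]
    have h3 : v.deg = finrank k k' * (placeEquiv (k' := k') v).deg :=
      deg_down (k := k) (placeEquiv (k' := k') v)
    rw [← h3]
    rfl
  rw [e1, e2]

end consts

end Pool.Agent.TH943.KF
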